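import Mathlib

/-!
# RK-ASM, part 2: the numbers
-/

set_option autoImplicit false

namespace Pool.Agent.Y269.RA

/-- the choice of `q` -/
theorem num {n a m M K0 : ℕ} {H0 cc E L : ℝ} (hn : 65 ≤ n) (ha1 : (31 / 32 : ℝ) * n ≤ a)
    (ha2 : a ≤ n) (hM1 : H0 + 1 / 2 < M) (hM2 : (M : ℝ) ≤ H0 + 3 / 2)
    (hcc0 : 0 ≤ cc) (hcc : cc ≤ m / 31) (hE0 : 0 ≤ E) (hE : n * E ≤ 1.001 * m / 128)
    (hL : 0 ≤ L) (hK : (K0 : ℝ) ≤ 1.001 * (L * (m * n)))
    (hbig : (32 * (n : ℝ) ^ 2 * (1 + M + M ^ 2 + 2 * n) + 6 * n * (4 * n + 2) + 5 * (n + 1)) * (L + 1)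
      ≤ m) :
    ∃ q : ℕ, 0 < q ∧ q < m ∧ m * H0 + a * q + cc + E ≤ m * M - 1 / 2 ∧
      ∀ ρ : ℕ, m * H0 + a * q + cc - E ≤ ρ → m * M - ρ ≤ q ∧
        (m + K0 + M ^ 2 * (m * (m - 1))) + 2 * q * (m * M - ρ) + m * M + 2 * m * M ^ 2 <
          (m * M) ^ 2 + q ^ 2 + q := by
  have hn' : (65 : ℝ) ≤ n := by exact_mod_cast hn
  have ha2' : (a : ℝ) ≤ n := by exact_mod_cast ha2
  have hM0 : (0 : ℝ) ≤ M := Nat.cast_nonneg M
  have hbase : 32 * (n : ℝ) ^ 2 * (1 + M + M ^ 2 + 2 * n) + 6 * n * (4 * n + 2) + 5 * (n + 1) ≤ m := by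
    refine le_trans ?_ hbig
    have h1 : (0 : ℝ) ≤ 32 * (n : ℝ) ^ 2 * (1 + M + M ^ 2 + 2 * n) + 6 * n * (4 * n + 2) + 5 * (n + 1) := by
      positivity
    nlinarith
  have hp1 : (0 : ℝ) ≤ 32 * (n : ℝ) ^ 2 * (1 + M + M ^ 2 + 2 * n) := by positivity
  have hp2 : (0 : ℝ) ≤ 6 * n * (4 * n + 2) := by positivity
  have hm5 : 5 * ((n : ℝ) + 1) ≤ m := by linarith
  have hm6 : 6 * (n : ℝ) * (4 * n + 2) ≤ m := by linarith
  have hmpos : (0 : ℝ) < m := by linarith
  have hapos : (0 : ℝ) < a := by linarith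
  have ha2b : (2 : ℝ) ≤ a := by linarith
  have hEm : E ≤ m / 1000 := by
    have h1 : 65 * E ≤ n * E := mul_le_mul_of_nonneg_right hn' hE0
    linarith
  set T : ℝ := m * M - 1 / 2 - m * H0 - cc - E with hT
  have hmM : (m : ℝ) * H0 + m * (1 / 2) ≤ m * M := by
    rw [← mul_add]
    exact mul_le_mul_of_nonneg_left hM1.le hmpos.le
  have hmM2 : (m : ℝ) * M ≤ m * H0 + m * (3 / 2) := by
    rw [← mul_add]
    exact mul_le_mul_of_nonneg_left hM2 hmpos.le
  have hT1 : 0.46 * (m : ℝ) - 1 / 2 ≤ T := by rw [hT]; linarith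
  have hT0 : 0 ≤ T := by linarith
  have hT2 : T ≤ m * (3 / 2) := by rw [hT]; linarith
  set q : ℕ := ⌊T / a⌋₊ with hq
  have hq1 : (a : ℝ) * q ≤ T := by
    have h1 := Nat.floor_le (div_nonneg hT0 hapos.le)
    rw [← hq, le_div_iff₀ hapos] at h1
    linarith
  have hq2 : T < a * (q + 1) := by
    have h1 := Nat.lt_floor_add_one (T / a)
    rw [← hq, div_lt_iff₀ hapos] at h1
    linarith
  have hq0 : (0 : ℝ) ≤ q := Nat.cast_nonneg q
  have hnq : (m : ℝ) / 4 ≤ n * q := by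
    have h1 : (a : ℝ) * (q + 1) ≤ n * (q + 1) := mul_le_mul_of_nonneg_right ha2' (by linarith)
    linarith
  have hqpos : 0 < q := by
    rcases Nat.eq_zero_or_pos q with h | h
    · rw [h] at hnq
      simp at hnq
      linarith
    · exact h
  have hqpos' : (0 : ℝ) < q := by exact_mod_cast hqpos
  refine ⟨q, hqpos, ?_, ?_, ?_⟩
  · have h1 : (2 : ℝ) * q ≤ a * q := mul_le_mul_of_nonneg_right ha2b hq0
    have h2 : (q : ℝ) < m := by linarith
    exact_mod_cast h2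
  · rw [hT] at hq1
    linarith
  · intro ρ hρ
    have hδ : ((m * M - ρ : ℕ) : ℝ) ≤ a + 1 / 2 + 2 * E := by
      rcases Nat.le_total (m * M) ρ with h | h
      · rw [Nat.sub_eq_zero_of_le h]
        simp
        linarith
      · rw [Nat.cast_sub h]
        push_cast
        rw [hT] at hq2
        linarith
    set δ : ℕ := m * M - ρ with hδdef
    have hδ0 : (0 : ℝ) ≤ δ := Nat.cast_nonneg δ
    have hδq : 4 * (δ : ℝ) ≤ q := by
      have h1 : (n : ℝ) * (4 * δ) ≤ n * q := by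
        have h2 : (n : ℝ) * (4 * δ) ≤ n * (4 * (a + 1 / 2 + 2 * E)) :=
          mul_le_mul_of_nonneg_left (by linarith) (by linarith)
        have h3 : (n : ℝ) * a ≤ n * n := mul_le_mul_of_nonneg_left ha2' (by linarith)
        have h4 : (n : ℝ) * (4 * (a + 1 / 2 + 2 * E)) = 4 * (n * a) + 2 * n + 8 * (n * E) := by ring
        have h5 : 6 * (n : ℝ) * (4 * n + 2) = 24 * (n * n) + 12 * n := by ring
        rw [h4] at h2
        rw [h5] at hm6
        linarith
      exact le_of_mul_le_mul_left h1 (by linarith)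
    refine ⟨?_, ?_⟩
    · have h1 : (δ : ℝ) ≤ q := by linarith
      exact_mod_cast h1
    · have hm1 : 1 ≤ m := by
        have : (0 : ℝ) < m := hmpos
        have : 0 < m := by exact_mod_cast this
        omega
      obtain ⟨m', hm'⟩ : ∃ m', m = m' + 1 := ⟨m - 1, by omega⟩
      have hmm : m * (m - 1) = (m' + 1) * m' := by rw [hm']; rfl
      have hmr : (m : ℝ) = m' + 1 := by rw [hm']; push_cast; ring
      -- the main inequality in the reals
      have hkey : (m : ℝ) + K0 + 2 * q * δ + m * M + m * M ^ 2 < q ^ 2 + q := by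
        have h1 : 2 * (q : ℝ) * δ ≤ q ^ 2 / 2 := by nlinarith
        have h2 : (m : ℝ) * (1 + M + M ^ 2) + K0 < q ^ 2 / 2 := by
          have h3 : ((m : ℝ) / 4) ^ 2 ≤ (n * q) ^ 2 := by gcongr
          have h4 : 32 * (n : ℝ) ^ 2 * (m * (1 + M + M ^ 2) + K0) < m ^ 2 := by
            have h5 : 32 * (n : ℝ) ^ 2 * (m * (1 + M + M ^ 2) + K0) ≤
                m * (32 * (n : ℝ) ^ 2 * (1 + M + M ^ 2 + 1.001 * (L * n))) := by
              have h6 : 32 * (n : ℝ) ^ 2 * K0 ≤ 32 * (n : ℝ) ^ 2 * (1.001 * (L * (m * n))) :=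
                mul_le_mul_of_nonneg_left hK (by positivity)
              nlinarith
            have h7 : 32 * (n : ℝ) ^ 2 * (1 + M + M ^ 2 + 1.001 * (L * n)) < m := by
              refine lt_of_lt_of_le ?_ hbig
              have h8 : 0 ≤ (n : ℝ) ^ 2 * (1 + M + M ^ 2) * L := by positivity
              have h9 : 0 ≤ (n : ℝ) ^ 2 * n * L := by positivity
              have h10 : 0 ≤ (n : ℝ) ^ 2 * n := by positivity
              have h11 : 0 ≤ (n : ℝ) * (4 * n + 2) * L := by positivity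
              have h12 : 0 ≤ (n : ℝ) * (4 * n + 2) := by positivity
              have h13 : 0 ≤ ((n : ℝ) + 1) * L := by positivity
              nlinarith
            calc 32 * (n : ℝ) ^ 2 * (m * (1 + M + M ^ 2) + K0)
                ≤ m * (32 * (n : ℝ) ^ 2 * (1 + M + M ^ 2 + 1.001 * (L * n))) := h5
              _ < m * m := mul_lt_mul_of_pos_left h7 hmpos
              _ = m ^ 2 := by ring
          have hn2 : 0 < 32 * (n : ℝ) ^ 2 := by positivity
          have h14 : 32 * (n : ℝ) ^ 2 * (m * (1 + M + M ^ 2) + K0) < 32 * (n : ℝ) ^ 2 * (q ^ 2 / 2) := by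
            refine lt_of_lt_of_le h4 ?_
            have : 32 * (n : ℝ) ^ 2 * (q ^ 2 / 2) = 16 * (n * q) ^ 2 := by ring
            rw [this]
            nlinarith
          exact lt_of_mul_lt_mul_left h14 hn2.le
        nlinarith
      have hgoal : ((m + K0 + M ^ 2 * (m * (m - 1)) + 2 * q * δ + m * M + 2 * m * M ^ 2 : ℕ) : ℝ) <
          (((m * M) ^ 2 + q ^ 2 + q : ℕ) : ℝ) := by
        rw [hmm]
        push_cast
        rw [hmr] at hkey ⊢
        nlinarith
      exact_mod_cast hgoal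

end Pool.Agent.Y269.RA
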