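import Pool.Agent.Y269.RK.Stm2

/-!
# RK-ASM, part 1: the points of the base space
-/

set_option autoImplicit false

namespace Pool.Agent.Y269.RA

open Pool.Agent.Helper133.BT Pool.Agent.Helper133.BU Pool.Agent.Y269.RK Filter Topology
open scoped ComplexOrder

noncomputable section

/-- padding by zeros -/
def pad (a b : ℕ) (v : Fin (a + 1) → ℝ) : Fin (b + 1) → ℝ :=
  fun j => if h : (j : ℕ) < a + 1 then v ⟨j, h⟩ else 0

lemma pad_neg (a b : ℕ) (v : Fin (a + 1) → ℝ) : pad a b (-v) = -pad a b v := by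
  funext j
  simp only [pad, Pi.neg_apply]
  split_ifs <;> simp

lemma pad_mem {a b : ℕ} (hab : a ≤ b) {v : Fin (a + 1) → ℝ} (hv : v ∈ K a) : pad a b v ∈ K b := by
  simp only [K, Set.mem_ofPred_eq] at hv ⊢
  rw [← hv]
  have h1 : ∀ j : Fin (b + 1), |pad a b v j| =
      (fun i : ℕ => if h : i < a + 1 then |v ⟨i, h⟩| else 0) j := by
    intro j
    simp only [pad]
    split_ifs <;> simp
  simp only [h1]
  rw [Fin.sum_univ_eq_sum_range (fun i : ℕ => if h : i < a + 1 then |v ⟨i, h⟩| else 0) (b + 1)]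
  have h2 : ∑ i ∈ Finset.range (b + 1), (if h : i < a + 1 then |v ⟨i, h⟩| else 0) =
      ∑ i ∈ Finset.range (a + 1), (if h : i < a + 1 then |v ⟨i, h⟩| else 0) := by
    symm
    apply Finset.sum_subset
    · intro i hi
      rw [Finset.mem_range] at hi ⊢
      omega
    · intro i _ hi
      rw [Finset.mem_range] at hi
      rw [dif_neg hi]
  rw [h2, ← Fin.sum_univ_eq_sum_range
    (fun i : ℕ => if h : i < a + 1 then |v ⟨i, h⟩| else 0) (a + 1)]
  refine Finset.sum_congr rfl fun i _ => ?_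
  rw [dif_pos i.2]

lemma pad_lip (a b : ℕ) : LipschitzWith 1 (pad a b) := by
  refine LipschitzWith.of_dist_le_mul fun v v' => ?_
  rw [NNReal.coe_one, one_mul, dist_pi_le_iff dist_nonneg]
  intro j
  simp only [pad]
  split_ifs with h
  · exact dist_le_pi_dist v v' _
  · rw [dist_self]
    exact dist_nonneg

open Classical in
/-- the embedding of a sphere into a larger sphere -/
def embK (a b : ℕ) (v : Fin (a + 1) → ℝ) : ↥(K b) :=
  if h : a ≤ b ∧ v ∈ K a then ⟨pad a b v, pad_mem h.1 h.2⟩ else ⟨ev b 0, ev_mem b⟩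

lemma embK_coe {a b : ℕ} (hab : a ≤ b) {v : Fin (a + 1) → ℝ} (hv : v ∈ K a) :
    (embK a b v : Fin (b + 1) → ℝ) = pad a b v := by
  unfold embK
  rw [dif_pos ⟨hab, hv⟩]

/-- the spheres of the finite problem -/
abbrev YT (l L M : ℕ) : Type := ∀ k : Fin (KK l L), (Fin (nsp (parf l L) (KK l L) M k + 1) → ℝ)

lemma idx_lt {l L l' s : ℕ} (h : (l ≤ l' ∧ l' < L) ∧ s < nz L ∧ good l' s) :
    (l' - l) * nz L + s < KK l L := by
  unfold KK
  have h1 : (l' - l) + 1 ≤ L - l := by omega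
  calc (l' - l) * nz L + s < (l' - l) * nz L + nz L := by omega
    _ = ((l' - l) + 1) * nz L := by ring
    _ ≤ (L - l) * nz L := Nat.mul_le_mul_right _ h1

open Classical in
/-- the coordinates in the spheres -/
def ppy (l L M : ℕ) (y : YT l L M) (l' s : ℕ) : ↥(K (dd l')) :=
  if h : (l ≤ l' ∧ l' < L) ∧ s < nz L ∧ good l' s then
    embK (nsp (parf l L) (KK l L) M ((l' - l) * nz L + s)) (dd l')
      (y ⟨(l' - l) * nz L + s, idx_lt h⟩)
  else yb l'

open Classical in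
/-- the coordinates in the intervals -/
def ppu (l L : ℕ) (t : Fin (mm l L) → ℝ) (i : ℕ) : Set.Icc (0 : ℝ) 1 :=
  if h : ∃ c : Fin (mm l L), i / nz l = cx l L c then Set.projIcc 0 1 zero_le_one (t h.choose) else 0

/-- the point -/
def pp (l L M : ℕ) (t : Fin (mm l L) → ℝ) (y : YT l L M) : PT := ⟨ppu l L t, ppy l L M y⟩

lemma cx_inj {l L : ℕ} {c c' : Fin (mm l L)} (h : cx l L c = cx l L c') : c = c' :=
  ((JJ l L).orderEmbOfFin rfl).injective h

lemma cx_mem (l L : ℕ) (c : Fin (mm l L)) : cx l L c ∈ JJ l L :=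
  (JJ l L).orderEmbOfFin_mem rfl c

lemma cx_lt {l L : ℕ} (c : Fin (mm l L)) : cx l L c < nz L / nz l := by
  classical
  have h := cx_mem l L c
  simp only [JJ, Finset.mem_filter, Finset.mem_range] at h
  exact h.1

lemma ppu_cx {l L : ℕ} (t : Fin (mm l L) → ℝ) (c : Fin (mm l L)) (ht : 0 ≤ t c ∧ t c ≤ 1) {i : ℕ}
    (hi : i < nz l) : (ppu l L t (cx l L c * nz l + i) : ℝ) = t c := by
  have hd : (cx l L c * nz l + i) / nz l = cx l L c := div_block _ hi
  have hex : ∃ c' : Fin (mm l L), (cx l L c * nz l + i) / nz l = cx l L c' := ⟨c, hd⟩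
  unfold ppu
  rw [dif_pos hex]
  have h1 : hex.choose = c := cx_inj (hex.choose_spec.symm.trans hd)
  rw [h1, Set.projIcc_of_mem zero_le_one (Set.mem_Icc.mpr ht)]

/-! ### local Lipschitz conditions -/

lemma ll_lip {X Y Z : Type} [PseudoEMetricSpace X] [PseudoEMetricSpace Y] [PseudoEMetricSpace Z]
    {Ω : Set X} {f : X → Y} {g : Y → Z} (hf : LocallyLipschitzOn Ω f) (hg : LipschitzWith 1 g) :
    LocallyLipschitzOn Ω fun x => g (f x) :=
  ll_comp (Ω' := Set.univ) hf (fun _ _ => trivial)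
    (hg.locallyLipschitz.locallyLipschitzOn)

lemma ppu_ll {l L M q : ℕ} (Ω : Set ((Fin (mm l L) → ℝ) × YT l L M))
    (hΩ : ∀ x ∈ Ω, x.1 ∈ TT (mm l L) q) (i : ℕ) :
    LocallyLipschitzOn Ω fun x => ((pp l L M x.1 x.2).u i : ℝ) := by
  by_cases h : ∃ c : Fin (mm l L), i / nz l = cx l L c
  · have h1 : LocallyLipschitzOn Ω fun x => x.1 h.choose :=
      ((LipschitzWith.eval h.choose).comp LipschitzWith.prod_fst).locallyLipschitz.locallyLipschitzOn
    refine ll_congr h1 fun x hx => ?_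
    show x.1 h.choose = (ppu l L x.1 i : ℝ)
    unfold ppu
    rw [dif_pos h, Set.projIcc_of_mem zero_le_one (Set.mem_Icc.mpr ((hΩ x hx).1 h.choose))]
  · refine ll_congr (ll_const Ω (0 : ℝ)) fun x _ => ?_
    show (0 : ℝ) = (ppu l L x.1 i : ℝ)
    unfold ppu
    rw [dif_neg h]
    rfl

lemma ppy_ll {l L M : ℕ} (hdim : ∀ k < KK l L, nsp (parf l L) (KK l L) M k ≤ dd (l + k / nz L))
    (Ω : Set ((Fin (mm l L) → ℝ) × YT l L M))
    (hΩ : ∀ x ∈ Ω, x.2 ∈ YY (nsp (parf l L) (KK l L) M) (KK l L)) (l' s : ℕ) :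
    LocallyLipschitzOn Ω fun x =>
      ((pp l L M x.1 x.2).y l' s : Fin (dd l' + 1) → ℝ) := by
  by_cases h : (l ≤ l' ∧ l' < L) ∧ s < nz L ∧ good l' s
  · have h0 : nsp (parf l L) (KK l L) M ((l' - l) * nz L + s) ≤ dd l' := by
      have h1 := hdim _ (idx_lt h)
      have h2 : l + ((l' - l) * nz L + s) / nz L = l' := by
        rw [div_block _ h.2.1]
        omega
      rwa [h2] at h1
    have h1 : LocallyLipschitzOn Ω fun x : (Fin (mm l L) → ℝ) × YT l L M =>
        pad (nsp (parf l L) (KK l L) M ((l' - l) * nz L + s)) (dd l')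
          (x.2 ⟨(l' - l) * nz L + s, idx_lt h⟩) := by
      refine ll_lip ?_ (pad_lip _ _)
      exact ((LipschitzWith.eval (⟨(l' - l) * nz L + s, idx_lt h⟩ : Fin (KK l L))).comp
        LipschitzWith.prod_snd).locallyLipschitz.locallyLipschitzOn
    refine ll_congr h1 fun x hx => ?_
    show _ = (ppy l L M x.2 l' s : Fin (dd l' + 1) → ℝ)
    unfold ppy
    rw [dif_pos h, embK_coe h0]
    exact hΩ x hx ⟨(l' - l) * nz L + s, idx_lt h⟩
  · refine ll_congr (ll_const Ω (yb l' : Fin (dd l' + 1) → ℝ)) fun x _ => ?_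
    show _ = (ppy l L M x.2 l' s : Fin (dd l' + 1) → ℝ)
    unfold ppy
    rw [dif_neg h]

/-! ### flips -/

attribute [local irreducible] nz dd nsp KK

lemma ppy_bad {l L M : ℕ} (y : YT l L M) {l' s : ℕ}
    (h : ¬ ((l ≤ l' ∧ l' < L) ∧ s < nz L ∧ good l' s)) : ppy l L M y l' s = yb l' := dif_neg h

lemma ppy_good {l L M : ℕ} (y : YT l L M) {l' s : ℕ}
    (h : (l ≤ l' ∧ l' < L) ∧ s < nz L ∧ good l' s) : ppy l L M y l' s =
      embK (nsp (parf l L) (KK l L) M ((l' - l) * nz L + s)) (dd l')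
      (y ⟨(l' - l) * nz L + s, idx_lt h⟩) := dif_pos h

lemma flf_self {l L M : ℕ} (y : YT l L M) {k k' : Fin (KK l L)} (h : k' = k) :
    (flf k y) k' = -(y k') := by
  subst h
  exact Function.update_self _ _ _

lemma flf_ne {l L M : ℕ} (y : YT l L M) {k k' : Fin (KK l L)} (h : k' ≠ k) :
    (flf k y) k' = y k' := Function.update_of_ne h _ _

/-- the flip of one sphere, other coordinates -/
lemma ppy_flf_ne {l L M : ℕ} (y : YT l L M) (k : Fin (KK l L)) {l' s : ℕ}
    (h1 : (l' - l) * nz L + s ≠ k) :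
    ppy l L M (flf k y) l' s = ppy l L M y l' s := by
  by_cases h : (l ≤ l' ∧ l' < L) ∧ s < nz L ∧ good l' s
  · rw [ppy_good _ h, ppy_good _ h, flf_ne]
    intro h2
    exact h1 (congrArg Fin.val h2)
  · rw [ppy_bad _ h, ppy_bad _ h]

/-- the flip of one sphere, this coordinate -/
lemma ppy_flf_self {l L M : ℕ}
    (hdim : ∀ k < KK l L, nsp (parf l L) (KK l L) M k ≤ dd (l + k / nz L))
    {y : YT l L M} (hy : y ∈ YY (nsp (parf l L) (KK l L) M) (KK l L)) (k : Fin (KK l L))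
    {l' s : ℕ} (h1 : (l' - l) * nz L + s = k)
    (h : (l ≤ l' ∧ l' < L) ∧ s < nz L ∧ good l' s) :
    (ppy l L M (flf k y) l' s : Fin (dd l' + 1) → ℝ) =
      -(ppy l L M y l' s : Fin (dd l' + 1) → ℝ) := by
  have h0 : nsp (parf l L) (KK l L) M ((l' - l) * nz L + s) ≤ dd l' := by
    have h1 := hdim _ (idx_lt h)
    have h2 : l + ((l' - l) * nz L + s) / nz L = l' := by
      rw [div_block _ h.2.1]
      omega
    rwa [h2] at h1
  have hk' : (⟨(l' - l) * nz L + s, idx_lt h⟩ : Fin (KK l L)) = k := Fin.ext h1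
  have hy1 : y ⟨(l' - l) * nz L + s, idx_lt h⟩ ∈
      K (nsp (parf l L) (KK l L) M ((l' - l) * nz L + s)) := hy ⟨(l' - l) * nz L + s, idx_lt h⟩
  have hy2 : -(y ⟨(l' - l) * nz L + s, idx_lt h⟩) ∈
      K (nsp (parf l L) (KK l L) M ((l' - l) * nz L + s)) := K_neg _ hy1
  have e1 : ppy l L M (flf k y) l' s =
      embK (nsp (parf l L) (KK l L) M ((l' - l) * nz L + s)) (dd l')
      (-(y ⟨(l' - l) * nz L + s, idx_lt h⟩)) := by
    rw [← flf_self y hk']
    exact ppy_good _ h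
  have e2 := ppy_good y h
  rw [e1, e2]
  have e3 := embK_coe h0 hy2
  have e4 := embK_coe h0 hy1
  rw [e3, e4]
  exact pad_neg _ _ _

lemma pp_flip_good {l L M : ℕ}
    (hdim : ∀ k < KK l L, nsp (parf l L) (KK l L) M k ≤ dd (l + k / nz L))
    (t : Fin (mm l L) → ℝ) {y : YT l L M} (hy : y ∈ YY (nsp (parf l L) (KK l L) M) (KK l L))
    (k : Fin (KK l L)) {l₁ s₁ : ℕ} (hl : l ≤ l₁) (hL : l₁ < L) (hs : s₁ < nz L)
    (hk : (l₁ - l) * nz L + s₁ = k) (hg : good l₁ s₁) :
    pp l L M t (flf k y) = flip l₁ s₁ (pp l L M t y) := by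
  refine PT.ext' (fun i => rfl) fun l' s => ?_
  by_cases h1 : l' = l₁ ∧ s = s₁
  · obtain ⟨rfl, rfl⟩ := h1
    apply Subtype.ext
    rw [flip_y_self]
    exact ppy_flf_self hdim hy k hk ⟨⟨hl, hL⟩, hs, hg⟩
  · rw [flip_y_ne _ h1]
    show ppy l L M (flf k y) l' s = ppy l L M y l' s
    by_cases h : (l ≤ l' ∧ l' < L) ∧ s < nz L ∧ good l' s
    · apply ppy_flf_ne
      intro h2
      apply h1
      rw [← hk] at h2
      have h3 := congrArg (fun i => i / nz L) h2
      have h4 := congrArg (fun i => i % nz L) h2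
      simp only [div_block _ h.2.1, div_block _ hs] at h3
      simp only [mod_block _ h.2.1, mod_block _ hs] at h4
      exact ⟨by omega, h4⟩
    · rw [ppy_bad _ h, ppy_bad _ h]

lemma pp_flip_bad {l L M : ℕ}
    (t : Fin (mm l L) → ℝ) {y : YT l L M}
    (k : Fin (KK l L)) {l₁ s₁ : ℕ} (hs : s₁ < nz L) (hl : l ≤ l₁)
    (hk : (l₁ - l) * nz L + s₁ = k) (hg : ¬ good l₁ s₁) :
    pp l L M t (flf k y) = pp l L M t y := by
  refine PT.ext' (fun i => rfl) fun l' s => ?_
  show ppy l L M (flf k y) l' s = ppy l L M y l' s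
  by_cases h : (l ≤ l' ∧ l' < L) ∧ s < nz L ∧ good l' s
  · apply ppy_flf_ne
    intro h2
    rw [← hk] at h2
    have h3 := congrArg (fun i => i / nz L) h2
    have h4 := congrArg (fun i => i % nz L) h2
    simp only [div_block _ h.2.1, div_block _ hs] at h3
    simp only [mod_block _ h.2.1, mod_block _ hs] at h4
    have h5 : l' = l₁ := by omega
    rw [h5, h4] at h
    exact hg h.2.2
  · rw [ppy_bad _ h, ppy_bad _ h]

end

end Pool.Agent.Y269.RA
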